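import Pool.Agent.LSG.Stmts

set_option autoImplicit false

open MeasureTheory Set Topology

namespace Pool.Agent.LSG.H11

theorem out : OutStmt := by
  intro G hG E hE
  apply le_antisymm
  · exact measure_mono (fun x hx => hx.2)
  · have hW : MeasurableSet (toMeasurable mu {x | x ∈ G ∧ x ∈ E}) := measurableSet_toMeasurable _ _
    have hnull : mu (E \ toMeasurable mu {x | x ∈ G ∧ x ∈ E}) = 0 := by
      by_contra hne
      have hpos : 0 < mu (E \ toMeasurable mu {x | x ∈ G ∧ x ∈ E}) := pos_iff_ne_zero.mpr hne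
      obtain ⟨x, hxG, hxE, hxW⟩ := hG.full _ (hE.diff hW) hpos
      exact hxW (subset_toMeasurable _ _ ⟨hxG, hxE⟩)
    calc mu E ≤ mu (toMeasurable mu {x | x ∈ G ∧ x ∈ E} ∪ (E \ toMeasurable mu {x | x ∈ G ∧ x ∈ E})) := by
          apply measure_mono; intro x hx; by_cases h : x ∈ toMeasurable mu {x | x ∈ G ∧ x ∈ E}
          · exact Or.inl h
          · exact Or.inr ⟨hx, h⟩
      _ ≤ _ := measure_union_le _ _
      _ = mu {x | x ∈ G ∧ x ∈ E} := by rw [hnull, add_zero, measure_toMeasurable]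

end Pool.Agent.LSG.H11
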